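import Pool.Agent.H85.Spectral.Fourier

set_option autoImplicit false

open MeasureTheory Filter Topology Set
open scoped RealInnerProductSpace ComplexConjugate ENNReal

namespace Pool.Agent.H85.Spectral

open Pool.Agent.H51.Neumann

variable {n : ℕ}

/-- `D` is a spectral set (Fuglede) with spectrum `Λ`: the exponentials `e^{2πi⟨a,x⟩}`, `a ∈ Λ`,
are pairwise orthogonal in `L²(D; ℂ)` and complete. -/
structure IsSpectral (D Λ : Set (E n)) : Prop where
  orthogonal : ∀ a ∈ Λ, ∀ b ∈ Λ, a ≠ b → ∫ x in D, wave a x * conj (wave b x) = 0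
  complete : ∀ f : E n → ℂ, MemLp f 2 (volume.restrict D) →
    (∀ a ∈ Λ, ∫ x in D, f x * conj (wave a x) = 0) → f =ᵐ[volume.restrict D] 0

lemma memLp_wave {D : Set (E n)} (hfin : volume D ≠ ⊤) (ξ : E n) :
    MemLp (wave ξ) 2 (volume.restrict D) := by
  have : IsFiniteMeasure (volume.restrict D) := ⟨by
    rw [Measure.restrict_apply_univ]; exact lt_top_iff_ne_top.2 hfin⟩
  exact MemLp.of_bound (continuous_wave' ξ).aestronglyMeasurable 1
    (Eventually.of_forall fun x => (norm_wave ξ x).le)

lemma inner_toLp {D : Set (E n)} {f g : E n → ℂ} (hf : MemLp f 2 (volume.restrict D))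
    (hg : MemLp g 2 (volume.restrict D)) :
    inner ℂ (hf.toLp f) (hg.toLp g) = ∫ x in D, g x * conj (f x) := by
  rw [L2.inner_def]
  refine integral_congr_ae ?_
  filter_upwards [hf.coeFn_toLp, hg.coeFn_toLp] with x h1 h2
  rw [h1, h2]
  simp

/-- Parseval -/
theorem parseval {D Λ : Set (E n)} (hfin : volume D ≠ ⊤) (hpos : 0 < volume.real D)
    (h : IsSpectral D Λ) (ξ : E n) :
    HasSum (fun a : Λ => q D (ξ - a)) (volume.real D ^ 2) := by
  set s := volume.real D with hs
  set W : E n → Lp ℂ 2 (volume.restrict D) := fun a => (memLp_wave hfin a).toLp (wave a) with hW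
  have hin : ∀ a b : E n, inner ℂ (W a) (W b) = ∫ x in D, wave (b - a) x := by
    intro a b
    rw [hW]
    simp only
    rw [inner_toLp]
    simp only [wave_mul_conj]
  have h0 : ∫ x in D, wave (0 : E n) x = (s : ℂ) := by
    have : ∀ x : E n, wave (0 : E n) x = 1 := by
      intro x
      simp [wave]
    simp only [this]
    rw [integral_const]
    simp [Measure.real, hs]
  have hss : (Real.sqrt s)⁻¹ * (Real.sqrt s)⁻¹ * s = 1 := by
    rw [← mul_inv, Real.mul_self_sqrt hpos.le]
    exact inv_mul_cancel₀ hpos.ne'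
  set U : Λ → Lp ℂ 2 (volume.restrict D) := fun a => (((Real.sqrt s)⁻¹ : ℝ) : ℂ) • W a with hU
  have hon : Orthonormal ℂ U := by
    rw [orthonormal_iff_ite]
    intro a b
    rw [hU]
    simp only
    rw [inner_smul_left, inner_smul_right, hin, Complex.conj_ofReal]
    split_ifs with hab
    · subst hab
      rw [sub_self, h0, ← mul_assoc]
      exact_mod_cast hss
    · have h1 := h.orthogonal b b.2 a a.2 (fun e => hab (Subtype.ext e.symm))
      simp only [wave_mul_conj] at h1
      rw [h1, mul_zero, mul_zero]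
  have hcomp : (Submodule.span ℂ (Set.range U))ᗮ = ⊥ := by
    rw [Submodule.eq_bot_iff]
    intro f hf
    have h1 : MemLp (f : E n → ℂ) 2 (volume.restrict D) := Lp.memLp f
    have h2 := h.complete f h1 (by
      intro a ha
      have h3 := (Submodule.mem_orthogonal _ _).1 hf (U ⟨a, ha⟩)
        (Submodule.subset_span ⟨⟨a, ha⟩, rfl⟩)
      rw [hU] at h3
      simp only at h3
      rw [inner_smul_left, mul_eq_zero] at h3
      rcases h3 with h3 | h3
      · exfalso
        rw [map_eq_zero, Complex.ofReal_eq_zero, inv_eq_zero, Real.sqrt_eq_zero hpos.le] at h3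
        exact hpos.ne' h3
      · rw [← Lp.toLp_coeFn f h1, hW] at h3
        simp only at h3
        rw [inner_toLp] at h3
        exact h3)
    exact (Lp.eq_zero_iff_ae_eq_zero).2 h2
  let B : HilbertBasis Λ ℂ (Lp ℂ 2 (volume.restrict D)) :=
    HilbertBasis.mkOfOrthogonalEqBot hon hcomp
  have hB : ∀ a, B a = U a := by intro a; simp [B]
  have hsum := B.hasSum_inner_mul_inner (W ξ) (W ξ)
  rw [hin, sub_self, h0] at hsum
  have e : (fun a : Λ => inner ℂ (W ξ) (B a) * inner ℂ (B a) (W ξ))
      = fun a : Λ => ((s⁻¹ * q D (ξ - a) : ℝ) : ℂ) := by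
    funext a
    rw [hB, ← inner_conj_symm (W ξ) (U a), Complex.conj_mul', hU]
    simp only
    rw [inner_smul_left, hin, Complex.conj_ofReal, norm_mul, ← Complex.ofReal_pow, mul_pow, q,
      Complex.norm_real, norm_inv, Real.norm_eq_abs, abs_of_nonneg (Real.sqrt_nonneg s), inv_pow,
      Real.sq_sqrt hpos.le]
  rw [e] at hsum
  have hsum2 := Complex.hasSum_ofReal.1 hsum
  have hsum3 := hsum2.mul_left s
  have e2 : (fun a : Λ => s * (s⁻¹ * q D (ξ - a))) = fun a : Λ => q D (ξ - a) := by
    funext a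
    rw [mul_inv_cancel_left₀ hpos.ne']
  rw [e2, ← sq] at hsum3
  exact hsum3

/-- the density of a spectrum: some ball of radius `R` contains more than `N` points of `Λ`
as soon as `|D| |B_R| > N` -/
theorem density {D Λ : Set (E n)} (hfin : volume D ≠ ⊤)
    (hpos : 0 < volume.real D) (h : IsSpectral D Λ) {R : ℝ} (hR : 0 < R) (N : ℕ)
    (hN : ∀ x : E n, ∀ S : Finset (E n), (∀ a ∈ S, a ∈ Λ ∧ dist a x < R) → S.card ≤ N) :
    volume.real D * volume.real (Metric.ball (0 : E n) R) ≤ N := by
  classical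
  have hcount : Λ.Countable := by
    obtain ⟨s, hs, hd⟩ := TopologicalSpace.exists_countable_dense (E n)
    have h1 : Λ ⊆ ⋃ x ∈ s, (Λ ∩ {a | dist a x < R}) := by
      intro a ha
      obtain ⟨x, hx, hx2⟩ := hd.exists_dist_lt a hR
      exact mem_biUnion hx ⟨ha, hx2⟩
    refine (hs.biUnion fun x _ => ?_).mono h1
    apply Set.Finite.countable
    by_contra hinf
    obtain ⟨S, hS, hc⟩ := (Set.not_finite.1 hinf : (Λ ∩ {a | dist a x < R}).Infinite)
      |>.exists_subset_card_eq (N + 1)
    have := hN x S (fun a ha => hS ha)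
    omega
  have : Countable Λ := hcount.to_subtype
  set s := volume.real D with hs
  have hq := continuous_q (D := D) hfin
  -- the double sum-integral
  have e1 : ∫⁻ η in Metric.ball (0 : E n) R, ∑' a : Λ, ENNReal.ofReal (q D (η - a))
      = ENNReal.ofReal (s ^ 2) * volume (Metric.ball (0 : E n) R) := by
    have : ∀ η : E n, ∑' a : Λ, ENNReal.ofReal (q D (η - a)) = ENNReal.ofReal (s ^ 2) := by
      intro η
      have h1 := parseval hfin hpos h η
      rw [← h1.tsum_eq, ENNReal.ofReal_tsum_of_nonneg (fun a => q_nonneg D _) h1.summable]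
    simp only [this]
    rw [setLIntegral_const]
  have hmq : ∀ a : Λ, Measurable fun η : E n => ENNReal.ofReal (q D (η - a)) := by
    intro a
    exact (hq.comp (continuous_id.sub continuous_const)).measurable.ennreal_ofReal
  rw [lintegral_tsum fun a => (hmq a).aemeasurable] at e1
  have hball : MeasurableSet (Metric.ball (0 : E n) R) := Metric.isOpen_ball.measurableSet
  have e2 : ∀ a : Λ, ∫⁻ η in Metric.ball (0 : E n) R, ENNReal.ofReal (q D (η - a))
      = ∫⁻ ξ : E n, (Metric.ball (0 : E n) R).indicator (fun _ => (1 : ℝ≥0∞)) (ξ + a)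
        * ENNReal.ofReal (q D ξ) := by
    intro a
    rw [← lintegral_indicator hball, ← lintegral_add_right_eq_self _ (a : E n)]
    refine lintegral_congr fun ξ => ?_
    by_cases hξ : ξ + a ∈ Metric.ball (0 : E n) R
    · rw [indicator_of_mem hξ, indicator_of_mem hξ, add_sub_cancel_right, one_mul]
    · rw [indicator_of_notMem hξ, indicator_of_notMem hξ, zero_mul]
  simp only [e2] at e1
  rw [← lintegral_tsum (fun a => by
    refine AEMeasurable.mul ?_ hq.measurable.ennreal_ofReal.aemeasurable
    exact ((measurable_const.indicator hball).comp (measurable_id.add_const _)).aemeasurable)]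
    at e1
  have e3 : ∀ ξ : E n, ∑' a : Λ, (Metric.ball (0 : E n) R).indicator (fun _ => (1 : ℝ≥0∞)) (ξ + a)
      * ENNReal.ofReal (q D ξ) ≤ (N : ℝ≥0∞) * ENNReal.ofReal (q D ξ) := by
    intro ξ
    rw [ENNReal.tsum_mul_right]
    refine mul_le_mul_left ?_ _
    rw [ENNReal.tsum_eq_iSup_sum]
    refine iSup_le fun t => ?_
    have h1 : ∑ a ∈ t, (Metric.ball (0 : E n) R).indicator (fun _ => (1 : ℝ≥0∞)) (ξ + a)
        = ((t.filter fun a : Λ => ξ + a ∈ Metric.ball (0 : E n) R).card : ℝ≥0∞) := by
      rw [Finset.card_filter, Nat.cast_sum]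
      refine Finset.sum_congr rfl fun a _ => ?_
      simp only [indicator_apply]
      split_ifs <;> simp
    rw [h1]
    have h2 := hN (-ξ) ((t.filter fun a : Λ => ξ + a ∈ Metric.ball (0 : E n) R).map
      (Function.Embedding.subtype _)) (by
        intro a ha
        rw [Finset.mem_map] at ha
        obtain ⟨b, hb, rfl⟩ := ha
        rw [Finset.mem_filter, mem_ball_zero_iff] at hb
        refine ⟨b.2, ?_⟩
        rw [dist_eq_norm, sub_neg_eq_add, add_comm]
        exact hb.2)
    rw [Finset.card_map] at h2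
    exact_mod_cast h2
  have e4 : ENNReal.ofReal (s ^ 2) * volume (Metric.ball (0 : E n) R) ≤ N * volume D := by
    rw [← e1]
    calc _ ≤ ∫⁻ ξ : E n, (N : ℝ≥0∞) * ENNReal.ofReal (q D ξ) := lintegral_mono e3
      _ = N * ∫⁻ ξ : E n, ENNReal.ofReal (q D ξ) :=
          lintegral_const_mul _ hq.measurable.ennreal_ofReal
      _ ≤ _ := mul_le_mul_right (lintegral_q_le hfin) _
  have e5 := ENNReal.toReal_mono (ENNReal.mul_ne_top (ENNReal.natCast_ne_top N) hfin) e4
  rw [ENNReal.toReal_mul, ENNReal.toReal_mul, ENNReal.toReal_ofReal (by positivity),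
    ENNReal.toReal_natCast] at e5
  change s ^ 2 * volume.real (Metric.ball (0 : E n) R) ≤ N * s at e5
  have e6 : s * (s * volume.real (Metric.ball (0 : E n) R)) ≤ s * N := by
    calc _ = s ^ 2 * volume.real (Metric.ball (0 : E n) R) := by ring
      _ ≤ N * s := e5
      _ = _ := by ring
  exact le_of_mul_le_mul_left e6 hpos

end Pool.Agent.H85.Spectral
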