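import Pool.Agent.H51.Neumann.Gauss

set_option autoImplicit false

open MeasureTheory Filter Topology Set
open scoped RealInnerProductSpace ComplexConjugate ENNReal

namespace Pool.Agent.H85.Spectral

open Pool.Agent.H51.Neumann

variable {n : ℕ}

/-- The plane wave `e^{2πi⟨ξ,x⟩}`. -/
noncomputable def wave (ξ x : E n) : ℂ :=
  Complex.exp (((2 * Real.pi * ⟪ξ, x⟫ : ℝ) : ℂ) * Complex.I)

lemma norm_wave (ξ x : E n) : ‖wave ξ x‖ = 1 := Complex.norm_exp_ofReal_mul_I _

lemma wave_re (ξ x : E n) : (wave ξ x).re = Real.cos (2 * Real.pi * ⟪ξ, x⟫) :=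
  Complex.exp_ofReal_mul_I_re _

lemma wave_im (ξ x : E n) : (wave ξ x).im = Real.sin (2 * Real.pi * ⟪ξ, x⟫) :=
  Complex.exp_ofReal_mul_I_im _

lemma wave_mul_conj (ξ η x : E n) : wave ξ x * conj (wave η x) = wave (ξ - η) x := by
  simp only [wave]
  rw [← Complex.exp_conj, ← Complex.exp_add, map_mul, Complex.conj_ofReal, Complex.conj_I,
    inner_sub_left]
  congr 1
  push_cast
  ring

lemma continuous_wave : Continuous fun p : E n × E n => wave p.1 p.2 := by
  unfold wave
  fun_prop

lemma continuous_wave' (ξ : E n) : Continuous (wave ξ) := by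
  unfold wave
  fun_prop

/-- `|∫_D e^{2πi⟨ξ,x⟩}|²` -/
noncomputable def q (D : Set (E n)) (ξ : E n) : ℝ := ‖∫ x in D, wave ξ x‖ ^ 2

lemma q_nonneg (D : Set (E n)) (ξ : E n) : 0 ≤ q D ξ := by
  unfold q
  positivity

lemma integrable_wave {D : Set (E n)} (hfin : volume D ≠ ⊤) (ξ : E n) :
    Integrable (wave ξ) (volume.restrict D) := by
  have : IsFiniteMeasure (volume.restrict D) := ⟨by
    rw [Measure.restrict_apply_univ]; exact lt_top_iff_ne_top.2 hfin⟩
  refine Integrable.of_bound (continuous_wave' ξ).aestronglyMeasurable 1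
    (Eventually.of_forall fun x => (norm_wave ξ x).le)

lemma continuous_q {D : Set (E n)} (hfin : volume D ≠ ⊤) : Continuous (q D) := by
  have : IsFiniteMeasure (volume.restrict D) := ⟨by
    rw [Measure.restrict_apply_univ]; exact lt_top_iff_ne_top.2 hfin⟩
  have h : Continuous fun ξ : E n => ∫ x in D, wave ξ x := by
    refine continuous_of_dominated (bound := fun _ => 1) (fun ξ =>
      (continuous_wave' ξ).aestronglyMeasurable) (fun ξ => Eventually.of_forall fun x =>
      (norm_wave ξ x).le) (integrable_const _) (Eventually.of_forall fun x => ?_)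
    exact continuous_wave.comp (Continuous.prodMk_left x)
  unfold q
  exact (continuous_norm.comp h).pow 2

/-- `q` as a double integral -/
lemma q_eq {D : Set (E n)} (hfin : volume D ≠ ⊤) (ξ : E n) :
    q D ξ = ∫ p, Real.cos ⟪ξ, (2 * Real.pi) • (p.1 - p.2)⟫
      ∂((volume.restrict D).prod (volume.restrict D)) := by
  have hf : IsFiniteMeasure (volume.restrict D) := ⟨by
    rw [Measure.restrict_apply_univ]; exact lt_top_iff_ne_top.2 hfin⟩
  have iC : Integrable (fun x : E n => Real.cos (2 * Real.pi * ⟪ξ, x⟫)) (volume.restrict D) := by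
    refine Integrable.of_bound (Continuous.aestronglyMeasurable (by fun_prop)) 1
      (Eventually.of_forall fun x => ?_)
    rw [Real.norm_eq_abs]; exact Real.abs_cos_le_one _
  have iS : Integrable (fun x : E n => Real.sin (2 * Real.pi * ⟪ξ, x⟫)) (volume.restrict D) := by
    refine Integrable.of_bound (Continuous.aestronglyMeasurable (by fun_prop)) 1
      (Eventually.of_forall fun x => ?_)
    rw [Real.norm_eq_abs]; exact Real.abs_sin_le_one _
  have hi := integrable_wave hfin ξ
  have e1 : (∫ x in D, wave ξ x).re = ∫ x in D, Real.cos (2 * Real.pi * ⟪ξ, x⟫) := by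
    have := integral_re hi
    simp only [RCLike.re_to_complex, wave_re] at this
    exact this.symm
  have e2 : (∫ x in D, wave ξ x).im = ∫ x in D, Real.sin (2 * Real.pi * ⟪ξ, x⟫) := by
    have := integral_im hi
    simp only [RCLike.im_to_complex, wave_im] at this
    exact this.symm
  rw [q, Complex.sq_norm, Complex.normSq_apply, e1, e2, ← integral_prod_mul, ← integral_prod_mul,
    ← integral_add (iC.mul_prod iC) (iS.mul_prod iS)]
  refine integral_congr_ae (Eventually.of_forall fun p => ?_)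
  simp only
  rw [inner_smul_right, inner_sub_right, mul_sub, Real.cos_sub]

/-- the Gaussian regularisation of the Plancherel inequality -/
lemma gauss_q_le {D : Set (E n)} (hfin : volume D ≠ ⊤) {t : ℝ}
    (ht : 0 < t) : Integrable (fun ξ : E n => Real.exp (-t * ‖ξ‖ ^ 2) * q D ξ) ∧
      ∫ ξ : E n, Real.exp (-t * ‖ξ‖ ^ 2) * q D ξ ≤ volume.real D := by
  have hf : IsFiniteMeasure (volume.restrict D) := ⟨by
    rw [Measure.restrict_apply_univ]; exact lt_top_iff_ne_top.2 hfin⟩
  set P := (volume.restrict D).prod (volume.restrict D) with hP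
  have hJ : Integrable (fun r : E n × (E n × E n) =>
      Real.exp (-t * ‖r.1‖ ^ 2) * Real.cos ⟪r.1, (2 * Real.pi) • (r.2.1 - r.2.2)⟫)
      (volume.prod P) := by
    have h1 : Integrable (fun r : E n × (E n × E n) => Real.exp (-t * ‖r.1‖ ^ 2) * (1 : ℝ))
      (volume.prod P) := (integrable_gauss ht).mul_prod (integrable_const (1 : ℝ))
    have h2 := h1.mul_bdd (c := 1) (g := fun r : E n × (E n × E n) =>
      Real.cos ⟪r.1, (2 * Real.pi) • (r.2.1 - r.2.2)⟫)
      (Continuous.aestronglyMeasurable (by fun_prop))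
        (Eventually.of_forall fun x => by
          rw [Real.norm_eq_abs]; exact Real.abs_cos_le_one _)
    simpa only [mul_one] using h2
  have hSg : ∀ ξ : E n, Real.exp (-t * ‖ξ‖ ^ 2) * q D ξ
      = ∫ p, Real.exp (-t * ‖ξ‖ ^ 2) * Real.cos ⟪ξ, (2 * Real.pi) • (p.1 - p.2)⟫ ∂P := by
    intro ξ
    rw [q_eq hfin, ← integral_const_mul]
  have hSint : Integrable (fun ξ => Real.exp (-t * ‖ξ‖ ^ 2) * q D ξ) := by
    have := hJ.integral_prod_left
    refine this.congr (Eventually.of_forall fun ξ => ?_)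
    exact (hSg ξ).symm
  refine ⟨hSint, ?_⟩
  set Gt := (Real.pi / t) ^ ((n : ℝ) / 2) with hGt
  have hGp : 0 < Gt := Real.rpow_pos_of_pos (by positivity) _
  set c := Real.pi ^ 2 / t with hc
  have hcp : 0 < c := by positivity
  have hSval : ∫ ξ : E n, Real.exp (-t * ‖ξ‖ ^ 2) * q D ξ
      = Gt * ∫ p, Real.exp (-c * ‖p.1 - p.2‖ ^ 2) ∂P := by
    simp only [hSg]
    rw [integral_integral_swap hJ, ← integral_const_mul]
    refine integral_congr_ae (Eventually.of_forall fun p => ?_)
    simp only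
    rw [integral_gauss_cos (n := n) ht, ← hGt]
    congr 2
    rw [norm_smul, mul_pow, Real.norm_eq_abs, sq_abs, hc]
    field_simp
    ring
  rw [hSval]
  have hi : Integrable (fun p : E n × E n => Real.exp (-c * ‖p.1 - p.2‖ ^ 2)) P := by
    refine Integrable.of_bound (Continuous.aestronglyMeasurable (by fun_prop)) 1
      (Eventually.of_forall fun p => ?_)
    rw [Real.norm_eq_abs, abs_of_pos (Real.exp_pos _), Real.exp_le_one_iff]
    have : 0 ≤ c * ‖p.1 - p.2‖ ^ 2 := by positivity
    linarith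
  rw [hP, integral_prod _ hi]
  have h1 : ∀ x : E n, ∫ y in D, Real.exp (-c * ‖x - y‖ ^ 2) ≤ (Real.pi / c) ^ ((n : ℝ) / 2) := by
    intro x
    have hg : Integrable (fun y : E n => Real.exp (-c * ‖x - y‖ ^ 2)) := by
      have := (integrable_gauss (n := n) hcp).comp_sub_left x
      exact this
    refine (setIntegral_le_integral hg (Eventually.of_forall fun y => (Real.exp_pos _).le)).trans
      (le_of_eq ?_)
    rw [integral_sub_left_eq_self (fun z : E n => Real.exp (-c * ‖z‖ ^ 2)) volume x,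
      integral_gauss hcp]
  have h2 : ∫ x in D, ∫ y in D, Real.exp (-c * ‖x - y‖ ^ 2)
      ≤ volume.real D * (Real.pi / c) ^ ((n : ℝ) / 2) := by
    calc ∫ x in D, ∫ y in D, Real.exp (-c * ‖x - y‖ ^ 2)
        ≤ ∫ _x in D, (Real.pi / c) ^ ((n : ℝ) / 2) :=
          integral_mono hi.integral_prod_left (integrable_const _) fun x => h1 x
      _ = _ := by
          rw [integral_const]
          simp only [smul_eq_mul, Measure.real, Measure.restrict_apply_univ]
  calc Gt * ∫ x in D, ∫ y in D, Real.exp (-c * ‖x - y‖ ^ 2)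
      ≤ Gt * (volume.real D * (Real.pi / c) ^ ((n : ℝ) / 2)) :=
        mul_le_mul_of_nonneg_left h2 hGp.le
    _ = volume.real D * (Gt * (Real.pi / c) ^ ((n : ℝ) / 2)) := by ring
    _ = volume.real D := by
        rw [hGt, ← Real.mul_rpow (by positivity) (by positivity), hc]
        have : Real.pi / t * (Real.pi / (Real.pi ^ 2 / t)) = 1 := by field_simp
        rw [this, Real.one_rpow, mul_one]

/-- the Plancherel inequality `∫ q ≤ |D|` -/
theorem lintegral_q_le {D : Set (E n)} (hfin : volume D ≠ ⊤) :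
    ∫⁻ ξ, ENNReal.ofReal (q D ξ) ≤ volume D := by
  have hm : ∀ k : ℕ, Measurable fun ξ : E n => ENNReal.ofReal
      (Real.exp (-(1 / ((k : ℝ) + 1)) * ‖ξ‖ ^ 2) * q D ξ) := by
    intro k
    have hq := continuous_q (D := D) hfin
    exact (Continuous.mul (by fun_prop) hq).measurable.ennreal_ofReal
  have hk : ∀ k : ℕ, ∫⁻ ξ : E n, ENNReal.ofReal
      (Real.exp (-(1 / ((k : ℝ) + 1)) * ‖ξ‖ ^ 2) * q D ξ) ≤ volume D := by
    intro k
    have ht : 0 < 1 / ((k : ℝ) + 1) := by positivity
    obtain ⟨h1, h2⟩ := gauss_q_le (n := n) hfin ht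
    rw [← ofReal_integral_eq_lintegral_ofReal h1 (Eventually.of_forall fun ξ =>
      mul_nonneg (Real.exp_pos _).le (q_nonneg D ξ))]
    refine (ENNReal.ofReal_le_ofReal h2).trans ?_
    rw [Measure.real, ENNReal.ofReal_toReal hfin]
  have hlim : ∀ ξ : E n, Tendsto (fun k : ℕ => ENNReal.ofReal
      (Real.exp (-(1 / ((k : ℝ) + 1)) * ‖ξ‖ ^ 2) * q D ξ)) atTop (𝓝 (ENNReal.ofReal (q D ξ))) := by
    intro ξ
    apply ENNReal.tendsto_ofReal
    have h0 : Tendsto (fun k : ℕ => -(1 / ((k : ℝ) + 1)) * ‖ξ‖ ^ 2) atTop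
        (𝓝 (-0 * ‖ξ‖ ^ 2)) := (tendsto_one_div_add_atTop_nhds_zero_nat.neg).mul_const _
    have h1 := ((Real.continuous_exp.tendsto _).comp h0).mul_const (q D ξ)
    simpa using h1
  calc ∫⁻ ξ, ENNReal.ofReal (q D ξ)
      = ∫⁻ ξ : E n, liminf (fun k : ℕ => ENNReal.ofReal
          (Real.exp (-(1 / ((k : ℝ) + 1)) * ‖ξ‖ ^ 2) * q D ξ)) atTop := by
        refine lintegral_congr fun ξ => ?_
        exact (hlim ξ).liminf_eq.symm
    _ ≤ liminf (fun k : ℕ => ∫⁻ ξ : E n, ENNReal.ofReal
          (Real.exp (-(1 / ((k : ℝ) + 1)) * ‖ξ‖ ^ 2) * q D ξ)) atTop := lintegral_liminf_le hm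
    _ ≤ liminf (fun _ : ℕ => volume D) atTop :=
        liminf_le_liminf (Eventually.of_forall hk)
    _ = volume D := liminf_const _

end Pool.Agent.H85.Spectral
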