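import Pool.Agent.H85.Spectral.Density

set_option autoImplicit false

open MeasureTheory Filter Topology Set
open scoped RealInnerProductSpace ComplexConjugate ENNReal ContDiff

namespace Pool.Agent.H85.Spectral

open Pool.Agent.H51.Neumann

variable {n : ℕ}

lemma contDiff_wave (ξ : E n) : ContDiff ℝ ∞ (wave ξ) := by
  unfold wave
  refine Complex.contDiff_exp.comp ?_
  refine ContDiff.mul ?_ contDiff_const
  exact Complex.ofRealCLM.contDiff.comp (contDiff_const.mul (contDiff_const.inner ℝ contDiff_id))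

lemma hasFDerivAt_phase (ξ y : E n) : HasFDerivAt (fun y : E n => 2 * Real.pi * ⟪ξ, y⟫)
    ((2 * Real.pi) • innerSL ℝ ξ) y :=
  ((innerSL ℝ ξ).hasFDerivAt).const_mul (2 * Real.pi)

lemma re_eq (c : ℂ) (ξ y : E n) : (c * wave ξ y).re
    = c.re * Real.cos (2 * Real.pi * ⟪ξ, y⟫) - c.im * Real.sin (2 * Real.pi * ⟪ξ, y⟫) := by
  rw [Complex.mul_re, wave_re, wave_im]

lemma im_eq (c : ℂ) (ξ y : E n) : (c * wave ξ y).im
    = c.re * Real.sin (2 * Real.pi * ⟪ξ, y⟫) + c.im * Real.cos (2 * Real.pi * ⟪ξ, y⟫) := by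
  rw [Complex.mul_im, wave_re, wave_im]

lemma hasFDerivAt_re (c : ℂ) (ξ y : E n) : HasFDerivAt (fun y => (c * wave ξ y).re)
    (innerSL ℝ ((-(2 * Real.pi * (c * wave ξ y).im)) • ξ)) y := by
  simp only [re_eq]
  have h := hasFDerivAt_phase ξ y
  refine ((h.cos.const_mul c.re).sub (h.sin.const_mul c.im)).congr_fderiv ?_
  ext v
  simp only [sub_apply, smul_apply, innerSL_apply_apply,
    smul_eq_mul, inner_smul_left, im_eq, conj_trivial]
  ring

lemma hasFDerivAt_im (c : ℂ) (ξ y : E n) : HasFDerivAt (fun y => (c * wave ξ y).im)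
    (innerSL ℝ ((2 * Real.pi * (c * wave ξ y).re) • ξ)) y := by
  simp only [im_eq]
  have h := hasFDerivAt_phase ξ y
  refine ((h.sin.const_mul c.re).add (h.cos.const_mul c.im)).congr_fderiv ?_
  ext v
  simp only [add_apply, smul_apply, innerSL_apply_apply,
    smul_eq_mul, inner_smul_left, re_eq, conj_trivial]
  ring

section Trig

variable {ι : Type*} [Fintype ι] (ξ : ι → E n) (c : ι → ℂ)

/-- trigonometric polynomials -/
noncomputable def P (y : E n) : ℂ := ∑ a, c a * wave (ξ a) y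

/-- gradient of the real part -/
noncomputable def gR (y : E n) : E n := ∑ a, (-(2 * Real.pi * (c a * wave (ξ a) y).im)) • ξ a

/-- gradient of the imaginary part -/
noncomputable def gI (y : E n) : E n := ∑ a, (2 * Real.pi * (c a * wave (ξ a) y).re) • ξ a

lemma P_re (y : E n) : (P ξ c y).re = ∑ a, (c a * wave (ξ a) y).re := by
  rw [P, Complex.re_sum]

lemma P_im (y : E n) : (P ξ c y).im = ∑ a, (c a * wave (ξ a) y).im := by
  rw [P, Complex.im_sum]

lemma contDiff_P : ContDiff ℝ ∞ (P ξ c) := by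
  unfold P
  exact ContDiff.sum fun a _ => contDiff_const.mul (contDiff_wave (ξ a))

lemma continuous_P : Continuous (P ξ c) := (contDiff_P ξ c).continuous

lemma continuous_gR : Continuous (gR ξ c) := by
  unfold gR
  refine continuous_finsetSum _ fun a _ => Continuous.fun_smul ?_ continuous_const
  exact (continuous_const.mul (Complex.continuous_im.comp
    (continuous_const.mul (continuous_wave' (ξ a))))).neg

lemma continuous_gI : Continuous (gI ξ c) := by
  unfold gI
  refine continuous_finsetSum _ fun a _ => Continuous.fun_smul ?_ continuous_const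
  exact continuous_const.mul (Complex.continuous_re.comp
    (continuous_const.mul (continuous_wave' (ξ a))))

lemma hasFDerivAt_P_re (y : E n) : HasFDerivAt (fun y => (P ξ c y).re)
    (innerSL ℝ (gR ξ c y)) y := by
  simp only [P_re, gR, map_sum]
  exact HasFDerivAt.fun_sum fun a _ => hasFDerivAt_re (c a) (ξ a) y

lemma hasFDerivAt_P_im (y : E n) : HasFDerivAt (fun y => (P ξ c y).im)
    (innerSL ℝ (gI ξ c y)) y := by
  simp only [P_im, gI, map_sum]
  exact HasFDerivAt.fun_sum fun a _ => hasFDerivAt_im (c a) (ξ a) y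

omit [Fintype ι] in
lemma norm_term (a : ι) (y : E n) : ‖c a * wave (ξ a) y‖ = ‖c a‖ := by
  rw [norm_mul, norm_wave, mul_one]

lemma norm_P_le (y : E n) : ‖P ξ c y‖ ≤ ∑ a, ‖c a‖ := by
  rw [P]
  refine (norm_sum_le _ _).trans (Finset.sum_le_sum fun a _ => ?_)
  rw [norm_term]

lemma norm_gR_le (y : E n) : ‖gR ξ c y‖ ≤ ∑ a, 2 * Real.pi * ‖c a‖ * ‖ξ a‖ := by
  rw [gR]
  refine (norm_sum_le _ _).trans (Finset.sum_le_sum fun a _ => ?_)
  rw [norm_smul, norm_neg, norm_mul, Real.norm_eq_abs, Real.norm_eq_abs,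
    abs_of_pos (by positivity)]
  have h := Complex.abs_im_le_norm (c a * wave (ξ a) y)
  rw [norm_term] at h
  gcongr

lemma norm_gI_le (y : E n) : ‖gI ξ c y‖ ≤ ∑ a, 2 * Real.pi * ‖c a‖ * ‖ξ a‖ := by
  rw [gI]
  refine (norm_sum_le _ _).trans (Finset.sum_le_sum fun a _ => ?_)
  rw [norm_smul, norm_mul, Real.norm_eq_abs, Real.norm_eq_abs,
    abs_of_pos (by positivity)]
  have h := Complex.abs_re_le_norm (c a * wave (ξ a) y)
  rw [norm_term] at h
  gcongr

/-- the energy density `|∇ Re P|² + |∇ Im P|²` -/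
noncomputable def G (y : E n) : ℝ := ‖gR ξ c y‖ ^ 2 + ‖gI ξ c y‖ ^ 2

lemma G_eq (y : E n) : G ξ c y = ∑ a, ∑ b, (2 * Real.pi) ^ 2 * ⟪ξ a, ξ b⟫
    * (c a * conj (c b) * wave (ξ a - ξ b) y).re := by
  rw [G, gR, gI, ← real_inner_self_eq_norm_sq, ← real_inner_self_eq_norm_sq, sum_inner, sum_inner,
    ← Finset.sum_add_distrib]
  refine Finset.sum_congr rfl fun a _ => ?_
  rw [inner_sum, inner_sum, ← Finset.sum_add_distrib]
  refine Finset.sum_congr rfl fun b _ => ?_
  rw [inner_smul_left, inner_smul_right, inner_smul_left, inner_smul_right, conj_trivial,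
    conj_trivial]
  have h : c a * conj (c b) * wave (ξ a - ξ b) y
      = (c a * wave (ξ a) y) * conj (c b * wave (ξ b) y) := by
    rw [map_mul, ← wave_mul_conj]
    ring
  rw [h]
  generalize c a * wave (ξ a) y = z1
  generalize c b * wave (ξ b) y = z2
  rw [Complex.mul_re, Complex.conj_re, Complex.conj_im]
  ring

lemma normSq_P_eq (y : E n) : ‖P ξ c y‖ ^ 2 = ∑ a, ∑ b,
    (c a * conj (c b) * wave (ξ a - ξ b) y).re := by
  have h1 : ((‖P ξ c y‖ ^ 2 : ℝ) : ℂ) = P ξ c y * conj (P ξ c y) := by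
    rw [Complex.mul_conj']
    push_cast
    rfl
  have h2 : ‖P ξ c y‖ ^ 2 = (P ξ c y * conj (P ξ c y)).re := by
    rw [← h1, Complex.ofReal_re]
  rw [h2, P, map_sum, Finset.sum_mul_sum, Complex.re_sum]
  refine Finset.sum_congr rfl fun a _ => ?_
  rw [Complex.re_sum]
  refine Finset.sum_congr rfl fun b _ => ?_
  congr 1
  rw [map_mul, ← wave_mul_conj]
  ring

end Trig

end Pool.Agent.H85.Spectral
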