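import Pool.Agent.H85.Spectral.MinMax

set_option autoImplicit false

open MeasureTheory Filter Topology Set
open scoped RealInnerProductSpace ComplexConjugate ENNReal ContDiff

namespace Pool.Agent.H85.Spectral

open Pool.Agent.H51.Neumann

variable {n : ℕ}

section Rigid

variable (A : E n ≃ₗᵢ[ℝ] E n) (b : E n)

lemma measurePreserving_rigid : MeasurePreserving (fun x : E n => A x + b) volume volume :=
  (measurePreserving_add_right volume b).comp A.measurePreserving

/-- rigid motions as homeomorphisms -/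
noncomputable def rigidHomeo : E n ≃ₜ E n := A.toHomeomorph.trans (Homeomorph.addRight b)

lemma measurableEmbedding_rigid : MeasurableEmbedding (fun x : E n => A x + b) :=
  (rigidHomeo A b).measurableEmbedding

lemma isOpen_rigid {Ω : Set (E n)} (h : IsOpen Ω) : IsOpen ((fun x : E n => A x + b) '' Ω) :=
  (rigidHomeo A b).isOpenMap Ω h

lemma volume_rigid (Ω : Set (E n)) : volume ((fun x : E n => A x + b) '' Ω) = volume Ω := by
  rw [← (measurePreserving_rigid A b).measure_preimage_emb (measurableEmbedding_rigid A b),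
    preimage_image_eq _ (measurableEmbedding_rigid A b).injective]

lemma setIntegral_rigid (Ω : Set (E n)) (F : E n → ℝ) :
    ∫ y in (fun x : E n => A x + b) '' Ω, F y = ∫ x in Ω, F (A x + b) :=
  (measurePreserving_rigid A b).setIntegral_image_emb (measurableEmbedding_rigid A b) F Ω

variable {ι : Type*} [Fintype ι] (ξ : ι → E n) (c : ι → ℂ) {Ω : Set (E n)}

lemma hasFDerivAt_rigid (x : E n) : HasFDerivAt (fun x : E n => A x + b)
    (A.toContinuousLinearEquiv : E n →L[ℝ] E n) x :=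
  (A.toContinuousLinearEquiv.hasFDerivAt).add_const b

lemma contDiff_rigid : ContDiff ℝ ∞ (fun x : E n => A x + b) :=
  A.contDiff.add contDiff_const

lemma isH1_re (hfin : volume Ω ≠ ⊤) : IsH1 Ω (fun x => (P ξ c (A x + b)).re)
    (fun x => A.symm (gR ξ c (A x + b))) := by
  refine isH1_of_smooth hfin _ _ ?_ ?_ ?_ ((∑ a, ‖c a‖) + ∑ a, 2 * Real.pi * ‖c a‖ * ‖ξ a‖)
    ?_ ?_
  · exact Complex.reCLM.contDiff.comp ((contDiff_P ξ c).comp (contDiff_rigid A b))
  · exact A.symm.continuous.comp ((continuous_gR ξ c).comp (contDiff_rigid A b).continuous)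
  · intro x v
    have h := (hasFDerivAt_P_re ξ c (A x + b)).comp x (hasFDerivAt_rigid A b x)
    have h2 : HasFDerivAt (fun x => (P ξ c (A x + b)).re) _ x := h
    rw [h2.fderiv]
    simp only [ContinuousLinearMap.comp_apply, innerSL_apply_apply]
    rw [← A.inner_map_map (A.symm _) v, A.apply_symm_apply]
    rfl
  · intro x
    have h1 := (Complex.abs_re_le_norm (P ξ c (A x + b))).trans (norm_P_le ξ c _)
    have h2 : 0 ≤ ∑ a, 2 * Real.pi * ‖c a‖ * ‖ξ a‖ := Finset.sum_nonneg fun a _ => by positivity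
    linarith
  · intro x
    rw [LinearIsometryEquiv.norm_map]
    have h1 := norm_gR_le ξ c (A x + b)
    have h2 : 0 ≤ ∑ a, ‖c a‖ := Finset.sum_nonneg fun a _ => by positivity
    linarith

lemma isH1_im (hfin : volume Ω ≠ ⊤) : IsH1 Ω (fun x => (P ξ c (A x + b)).im)
    (fun x => A.symm (gI ξ c (A x + b))) := by
  refine isH1_of_smooth hfin _ _ ?_ ?_ ?_ ((∑ a, ‖c a‖) + ∑ a, 2 * Real.pi * ‖c a‖ * ‖ξ a‖)
    ?_ ?_
  · exact Complex.imCLM.contDiff.comp ((contDiff_P ξ c).comp (contDiff_rigid A b))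
  · exact A.symm.continuous.comp ((continuous_gI ξ c).comp (contDiff_rigid A b).continuous)
  · intro x v
    have h := (hasFDerivAt_P_im ξ c (A x + b)).comp x (hasFDerivAt_rigid A b x)
    have h2 : HasFDerivAt (fun x => (P ξ c (A x + b)).im) _ x := h
    rw [h2.fderiv]
    simp only [ContinuousLinearMap.comp_apply, innerSL_apply_apply]
    rw [← A.inner_map_map (A.symm _) v, A.apply_symm_apply]
    rfl
  · intro x
    have h1 := (Complex.abs_im_le_norm (P ξ c (A x + b))).trans (norm_P_le ξ c _)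
    have h2 : 0 ≤ ∑ a, 2 * Real.pi * ‖c a‖ * ‖ξ a‖ := Finset.sum_nonneg fun a _ => by positivity
    linarith
  · intro x
    rw [LinearIsometryEquiv.norm_map]
    have h1 := norm_gI_le ξ c (A x + b)
    have h2 : 0 ≤ ∑ a, ‖c a‖ := Finset.sum_nonneg fun a _ => by positivity
    linarith

lemma continuous_G : Continuous (G ξ c) := by
  unfold G
  exact ((continuous_gR ξ c).norm.pow 2).add ((continuous_gI ξ c).norm.pow 2)

lemma G_le (y : E n) : ‖G ξ c y‖ ≤ 2 * (∑ a, 2 * Real.pi * ‖c a‖ * ‖ξ a‖) ^ 2 := by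
  have h1 := norm_gR_le ξ c y
  have h2 := norm_gI_le ξ c y
  rw [G, Real.norm_eq_abs, abs_of_nonneg (by positivity)]
  have h3 := pow_le_pow_left₀ (norm_nonneg _) h1 2
  have h4 := pow_le_pow_left₀ (norm_nonneg _) h2 2
  linarith

/-- The energy inequality for a trigonometric polynomial orthogonal to the first `j`
eigenfunctions. -/
theorem energy_trig {μ : ℕ → ℝ} (hfin : volume Ω ≠ ⊤)
    (u : ℕ → E n → ℝ) (g : ℕ → E n → E n) (hmono : Monotone μ)
    (hug : ∀ i, IsH1 Ω (u i) (g i))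
    (hon : ∀ i k, ∫ x in Ω, u i x * u k x = if i = k then 1 else 0)
    (hcomp : ∀ f : E n → ℝ, MemLp f 2 (volume.restrict Ω) →
      (∀ i, ∫ x in Ω, f x * u i x = 0) → f =ᵐ[volume.restrict Ω] 0)
    (heig : ∀ i v h, IsH1 Ω v h → ∫ x in Ω, ⟪g i x, h x⟫ = μ i * ∫ x in Ω, u i x * v x)
    (j : ℕ) (h0 : ∀ i < j, ∫ x in Ω, (u i x : ℂ) * P ξ c (A x + b) = 0) :
    μ j * ∫ x in Ω, ‖P ξ c (A x + b)‖ ^ 2 ≤ ∫ x in Ω, G ξ c (A x + b) := by
  have hf : IsFiniteMeasure (volume.restrict Ω) := ⟨by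
    rw [Measure.restrict_apply_univ]; exact lt_top_iff_ne_top.2 hfin⟩
  have hr := contDiff_rigid A b
  have h1 := energy u g hmono hug hon hcomp heig _ _ (isH1_re A b ξ c hfin) j
  have h2 := energy u g hmono hug hon hcomp heig _ _ (isH1_im A b ξ c hfin) j
  have hi : ∀ i, Integrable (fun x => (u i x : ℂ) * P ξ c (A x + b)) (volume.restrict Ω) := by
    intro i
    have hL1 : Integrable (u i) (volume.restrict Ω) := (hug i).memLp.integrable (by norm_num)
    refine hL1.ofReal.mul_bdd (c := ∑ a, ‖c a‖)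
      ((continuous_P ξ c).comp hr.continuous).aestronglyMeasurable
      (Eventually.of_forall fun x => norm_P_le ξ c _)
  have z1 : ∀ i < j, ∫ x in Ω, u i x * (P ξ c (A x + b)).re = 0 := by
    intro i hij
    have h := integral_re (hi i)
    rw [h0 i hij] at h
    simpa using h
  have z2 : ∀ i < j, ∫ x in Ω, u i x * (P ξ c (A x + b)).im = 0 := by
    intro i hij
    have h := integral_im (hi i)
    rw [h0 i hij] at h
    simpa using h
  rw [Finset.sum_eq_zero (fun i hi => by
    rw [z1 i (Finset.mem_range.1 hi), zero_pow (by norm_num)]), sub_zero] at h1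
  rw [Finset.sum_eq_zero (fun i hi => by
    rw [z2 i (Finset.mem_range.1 hi), zero_pow (by norm_num)]), sub_zero] at h2
  simp only [LinearIsometryEquiv.norm_map] at h1 h2
  have hb : ∀ F : E n → ℝ, Continuous F → (∃ C, ∀ x, ‖F x‖ ≤ C) →
      Integrable (fun x => F (A x + b)) (volume.restrict Ω) := by
    intro F hF ⟨C, hC⟩
    exact Integrable.of_bound (hF.comp hr.continuous).aestronglyMeasurable C
      (Eventually.of_forall fun x => hC _)
  have hPle := norm_P_le ξ c
  have i1 := hb (fun y => (P ξ c y).re ^ 2) ((Complex.continuous_re.comp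
    (continuous_P ξ c)).pow 2) ⟨(∑ a, ‖c a‖) ^ 2, fun y => by
      rw [norm_pow, Real.norm_eq_abs]
      exact pow_le_pow_left₀ (abs_nonneg _) ((Complex.abs_re_le_norm _).trans (hPle y)) 2⟩
  have i2 := hb (fun y => (P ξ c y).im ^ 2) ((Complex.continuous_im.comp
    (continuous_P ξ c)).pow 2) ⟨(∑ a, ‖c a‖) ^ 2, fun y => by
      rw [norm_pow, Real.norm_eq_abs]
      exact pow_le_pow_left₀ (abs_nonneg _) ((Complex.abs_im_le_norm _).trans (hPle y)) 2⟩
  have i3 := hb (fun y => ‖gR ξ c y‖ ^ 2) ((continuous_gR ξ c).norm.pow 2)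
    ⟨(∑ a, 2 * Real.pi * ‖c a‖ * ‖ξ a‖) ^ 2, fun y => by
      rw [norm_pow, norm_norm]
      exact pow_le_pow_left₀ (norm_nonneg _) (norm_gR_le ξ c y) 2⟩
  have i4 := hb (fun y => ‖gI ξ c y‖ ^ 2) ((continuous_gI ξ c).norm.pow 2)
    ⟨(∑ a, 2 * Real.pi * ‖c a‖ * ‖ξ a‖) ^ 2, fun y => by
      rw [norm_pow, norm_norm]
      exact pow_le_pow_left₀ (norm_nonneg _) (norm_gI_le ξ c y) 2⟩
  have e1 : ∫ x in Ω, ‖P ξ c (A x + b)‖ ^ 2
      = (∫ x in Ω, (P ξ c (A x + b)).re ^ 2) + ∫ x in Ω, (P ξ c (A x + b)).im ^ 2 := by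
    rw [← integral_add i1 i2]
    refine integral_congr_ae (Eventually.of_forall fun x => ?_)
    simp only
    rw [Complex.sq_norm, Complex.normSq_apply]
    ring
  have e2 : ∫ x in Ω, G ξ c (A x + b)
      = (∫ x in Ω, ‖gR ξ c (A x + b)‖ ^ 2) + ∫ x in Ω, ‖gI ξ c (A x + b)‖ ^ 2 := by
    rw [← integral_add i3 i4]
    rfl
  rw [e1, e2, mul_add]
  exact add_le_add h1 h2

end Rigid

/-- Integration of a quadratic expression in orthogonal waves. -/
lemma integral_quad {D Λ : Set (E n)} (hfin : volume D ≠ ⊤) (h : IsSpectral D Λ)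
    {ι : Type*} [Fintype ι] (ξ : ι → E n) (c : ι → ℂ) (x₀ : E n)
    (hξ : ∀ a, ξ a + x₀ ∈ Λ) (hinj : Function.Injective ξ) (K : ι → ι → ℝ) :
    ∫ y in D, ∑ a, ∑ b, K a b * (c a * conj (c b) * wave (ξ a - ξ b) y).re
      = volume.real D * ∑ a, K a a * ‖c a‖ ^ 2 := by
  classical
  have hw : ∀ a b, Integrable (fun y => K a b * (c a * conj (c b) * wave (ξ a - ξ b) y).re)
      (volume.restrict D) := by
    intro a b
    exact ((integrable_wave hfin (ξ a - ξ b)).const_mul (c a * conj (c b))).re.const_mul (K a b)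
  rw [integral_finsetSum _ fun a _ => integrable_finsetSum _ fun b _ => hw a b, Finset.mul_sum]
  refine Finset.sum_congr rfl fun a _ => ?_
  rw [integral_finsetSum _ fun b _ => hw a b, Finset.sum_eq_single a]
  · rw [integral_const_mul]
    have : ∀ y : E n, wave (ξ a - ξ a) y = 1 := by
      intro y
      simp [wave]
    simp only [this, mul_one]
    rw [integral_const, Complex.mul_conj']
    simp only [smul_eq_mul, Measure.real, Measure.restrict_apply_univ]
    have : ((‖c a‖ : ℂ) ^ 2).re = ‖c a‖ ^ 2 := by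
      rw [← Complex.ofReal_pow, Complex.ofReal_re]
    rw [this]
    ring
  · intro b _ hb
    rw [integral_const_mul]
    have h1 : ∫ y in D, wave (ξ a - ξ b) y = 0 := by
      have h2 := h.orthogonal _ (hξ a) _ (hξ b) (fun e => hb (hinj (add_right_cancel e)).symm)
      simp only [wave_mul_conj, add_sub_add_right_eq_sub] at h2
      exact h2
    have h3 := integral_re ((integrable_wave hfin (ξ a - ξ b)).const_mul (c a * conj (c b)))
    rw [integral_const_mul, h1, mul_zero] at h3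
    simp only [RCLike.re_to_complex] at h3
    rw [h3]
    simp
  · intro ha
    exact absurd (Finset.mem_univ a) ha

section Main

variable {Ω D Λ : Set (E n)} {μ : ℕ → ℝ}

lemma integral_packed (hΩ : IsOpen Ω) {m : ℕ} (A : Fin m → (E n ≃ₗᵢ[ℝ] E n)) (b : Fin m → E n)
    (hdisj : Pairwise (Function.onFun Disjoint fun k => (fun x => A k x + b k) '' Ω))
    (hcov : D =ᵐ[volume] ⋃ k, (fun x => A k x + b k) '' Ω) (hfin : volume Ω ≠ ⊤)
    (F : E n → ℝ) (hF : Continuous F) {C : ℝ} (hC : ∀ x, ‖F x‖ ≤ C) :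
    ∫ y in D, F y = ∑ k, ∫ x in Ω, F (A k x + b k) := by
  rw [setIntegral_congr_set hcov, integral_iUnion_fintype
    (fun k => (isOpen_rigid (A k) (b k) hΩ).measurableSet) hdisj]
  · exact Finset.sum_congr rfl fun k _ => setIntegral_rigid (A k) (b k) Ω F
  · intro k
    have : IsFiniteMeasure (volume.restrict ((fun x => A k x + b k) '' Ω)) := ⟨by
      rw [Measure.restrict_apply_univ, volume_rigid]; exact lt_top_iff_ne_top.2 hfin⟩
    exact Integrable.of_bound hF.aestronglyMeasurable C (Eventually.of_forall hC)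

lemma volume_packed (hΩ : IsOpen Ω) {m : ℕ} (A : Fin m → (E n ≃ₗᵢ[ℝ] E n)) (b : Fin m → E n)
    (hdisj : Pairwise (Function.onFun Disjoint fun k => (fun x => A k x + b k) '' Ω))
    (hcov : D =ᵐ[volume] ⋃ k, (fun x => A k x + b k) '' Ω) :
    volume D = m * volume Ω := by
  rw [measure_congr hcov, measure_iUnion hdisj
    (fun k => (isOpen_rigid (A k) (b k) hΩ).measurableSet)]
  simp only [volume_rigid]
  rw [tsum_fintype]
  simp

theorem mu_le (hΩ : IsOpen Ω) (hfin : volume Ω ≠ ⊤) (hV : 0 < volume.real Ω)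
    (hμ : IsNeumannSpectrum Ω μ) (hD : IsSpectral D Λ) {m : ℕ} (hm : 0 < m)
    (A : Fin m → (E n ≃ₗᵢ[ℝ] E n)) (b : Fin m → E n)
    (hdisj : Pairwise (Function.onFun Disjoint fun k => (fun x => A k x + b k) '' Ω))
    (hcov : D =ᵐ[volume] ⋃ k, (fun x => A k x + b k) '' Ω) (j : ℕ) {R : ℝ}
    (x₀ : E n) (S : Finset (E n)) (hS : ∀ a ∈ S, a ∈ Λ ∧ dist a x₀ < R) (hcard : m * j < S.card) :
    μ j ≤ (2 * Real.pi * R) ^ 2 := by
  classical
  obtain ⟨u, g, hug, hon, hcomp, heig⟩ := hμ.exists_basis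
  have hvD := volume_packed hΩ A b hdisj hcov
  have hfinD : volume D ≠ ⊤ := by
    rw [hvD]
    exact ENNReal.mul_ne_top (ENNReal.natCast_ne_top m) hfin
  have hposD : 0 < volume.real D := by
    rw [Measure.real, hvD, ENNReal.toReal_mul, ENNReal.toReal_natCast]
    have : (0 : ℝ) < m := by exact_mod_cast hm
    exact mul_pos this hV
  -- frequencies
  set ξ : S → E n := fun a => (a : E n) - x₀ with hξ
  have hξΛ : ∀ a, ξ a + x₀ ∈ Λ := by
    intro a
    rw [hξ]
    simp only [sub_add_cancel]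
    exact (hS a a.2).1
  have hξR : ∀ a, ‖ξ a‖ ≤ R := by
    intro a
    have := (hS a a.2).2
    rw [dist_eq_norm] at this
    exact this.le
  have hξinj : Function.Injective ξ := by
    intro a a' haa
    rw [hξ] at haa
    exact Subtype.ext (sub_left_injective haa)
  -- linear algebra
  let M : Matrix (Fin m × Fin j) S ℂ := fun ki a =>
    ∫ x in Ω, (u ki.2 x : ℂ) * wave (ξ a) (A ki.1 x + b ki.1)
  obtain ⟨c, hc, hc0⟩ : ∃ c : S → ℂ, M.mulVec c = 0 ∧ c ≠ 0 := by
    have h1 : LinearMap.ker M.mulVecLin ≠ ⊥ := by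
      apply LinearMap.ker_ne_bot_of_finrank_lt
      simpa using hcard
    obtain ⟨c, hc, hc0⟩ := Submodule.exists_mem_ne_zero_of_ne_bot h1
    exact ⟨c, hc, hc0⟩
  have hfm : IsFiniteMeasure (volume.restrict Ω) := ⟨by
    rw [Measure.restrict_apply_univ]; exact lt_top_iff_ne_top.2 hfin⟩
  have horth : ∀ k : Fin m, ∀ i < j, ∫ x in Ω, (u i x : ℂ) * P ξ c (A k x + b k) = 0 := by
    intro k i hij
    have h1 := congrFun hc (k, ⟨i, hij⟩)
    have hL1 : Integrable (u i) (volume.restrict Ω) := (hug i).memLp.integrable (by norm_num)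
    have hI : ∀ a : S, Integrable (fun x => (u i x : ℂ) * wave (ξ a) (A k x + b k))
        (volume.restrict Ω) := by
      intro a
      refine hL1.ofReal.mul_bdd (c := 1)
        ((continuous_wave' (ξ a)).comp (contDiff_rigid (A k) (b k)).continuous).aestronglyMeasurable
        (Eventually.of_forall fun x => (norm_wave _ _).le)
    have h2 : ∫ x in Ω, (u i x : ℂ) * P ξ c (A k x + b k)
        = ∑ a, (∫ x in Ω, (u i x : ℂ) * wave (ξ a) (A k x + b k)) * c a := by
      simp only [P, Finset.mul_sum]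
      rw [integral_finsetSum _ fun a _ => by
        have := (hI a).mul_const (c a)
        refine this.congr (Eventually.of_forall fun x => ?_)
        simp only
        ring]
      refine Finset.sum_congr rfl fun a _ => ?_
      rw [← integral_mul_const]
      refine integral_congr_ae (Eventually.of_forall fun x => ?_)
      simp only
      ring
    rw [h2]
    exact h1
  have hen := fun k : Fin m => energy_trig (A k) (b k) ξ c hfin u g hμ.mono hug hon hcomp heig j
    (horth k)
  have hsum := Finset.sum_le_sum fun k (_ : k ∈ (Finset.univ : Finset (Fin m))) => hen k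
  rw [← Finset.mul_sum] at hsum
  rw [← integral_packed hΩ A b hdisj hcov hfin (fun y => ‖P ξ c y‖ ^ 2)
    ((continuous_P ξ c).norm.pow 2) (C := (∑ a, ‖c a‖) ^ 2) (fun y => by
      rw [norm_pow, norm_norm]
      exact pow_le_pow_left₀ (norm_nonneg _) (norm_P_le ξ c y) 2),
    ← integral_packed hΩ A b hdisj hcov hfin (G ξ c) (continuous_G ξ c) (G_le ξ c)] at hsum
  have q1 := integral_quad hfinD hD ξ c x₀ hξΛ hξinj (fun _ _ => 1)
  have q2 := integral_quad hfinD hD ξ c x₀ hξΛ hξinj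
    (fun a b => (2 * Real.pi) ^ 2 * ⟪ξ a, ξ b⟫)
  simp only [one_mul, ← normSq_P_eq] at q1
  simp only [← G_eq] at q2
  rw [q1, q2] at hsum
  have hcpos : 0 < ∑ a, ‖c a‖ ^ 2 := by
    obtain ⟨a, ha⟩ := Function.ne_iff.1 hc0
    refine Finset.sum_pos' (fun a _ => by positivity) ⟨a, Finset.mem_univ a, ?_⟩
    have : 0 < ‖c a‖ := norm_pos_iff.2 ha
    positivity
  have h3 : ∑ a, (2 * Real.pi) ^ 2 * ⟪ξ a, ξ a⟫ * ‖c a‖ ^ 2
      ≤ (2 * Real.pi * R) ^ 2 * ∑ a, ‖c a‖ ^ 2 := by
    rw [Finset.mul_sum]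
    refine Finset.sum_le_sum fun a _ => ?_
    rw [real_inner_self_eq_norm_sq, mul_pow _ R]
    have := pow_le_pow_left₀ (norm_nonneg _) (hξR a) 2
    gcongr
  have h4 : μ j * (volume.real D * ∑ a, ‖c a‖ ^ 2)
      ≤ (2 * Real.pi * R) ^ 2 * (volume.real D * ∑ a, ‖c a‖ ^ 2) := by
    refine hsum.trans ?_
    calc volume.real D * ∑ a, (2 * Real.pi) ^ 2 * ⟪ξ a, ξ a⟫ * ‖c a‖ ^ 2
        ≤ volume.real D * ((2 * Real.pi * R) ^ 2 * ∑ a, ‖c a‖ ^ 2) := by gcongr
      _ = _ := by ring
  exact le_of_mul_le_mul_right h4 (mul_pos hposD hcpos)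

/-- the Weyl term `W_j(Ω) = (2π)² (j/(ω_n |Ω|))^{2/n}` -/
noncomputable def weyl {n : ℕ} (Ω : Set (E n)) (j : ℕ) : ℝ :=
  (2 * Real.pi) ^ 2 *
    ((j : ℝ) / (volume.real (Metric.ball (0 : E n) 1) * volume.real Ω)) ^ (2 / (n : ℝ))

theorem polya_of_spectral (hn : 0 < n) (hΩ : IsOpen Ω) (hfin : volume Ω ≠ ⊤)
    (hV : 0 < volume.real Ω)
    (hμ : IsNeumannSpectrum Ω μ) (hD : IsSpectral D Λ) {m : ℕ} (hm : 0 < m)
    (A : Fin m → (E n ≃ₗᵢ[ℝ] E n)) (b : Fin m → E n)
    (hdisj : Pairwise (Function.onFun Disjoint fun k => (fun x => A k x + b k) '' Ω))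
    (hcov : D =ᵐ[volume] ⋃ k, (fun x => A k x + b k) '' Ω) (j : ℕ) : μ j ≤ weyl Ω j := by
  by_contra hlt
  rw [not_le] at hlt
  have hn' : (0 : ℝ) < n := by exact_mod_cast hn
  have hm' : (0 : ℝ) < m := by exact_mod_cast hm
  set om := volume.real (Metric.ball (0 : E n) 1) with hom
  have homp : 0 < om := by
    rw [hom, Measure.real, ENNReal.toReal_pos_iff]
    exact ⟨Metric.measure_ball_pos _ _ one_pos, measure_ball_lt_top⟩
  set V := volume.real Ω with hVdef
  have hw0 : 0 ≤ weyl Ω j := by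
    unfold weyl
    positivity
  set s := (weyl Ω j + μ j) / 2 with hs
  have hs1 : weyl Ω j < s := by rw [hs]; linarith
  have hs2 : s < μ j := by rw [hs]; linarith
  have hs0 : 0 < s := lt_of_le_of_lt hw0 hs1
  set R := Real.sqrt s / (2 * Real.pi) with hR
  have hRp : 0 < R := by positivity
  have hRs : (2 * Real.pi * R) ^ 2 = s := by
    rw [hR, mul_div_cancel₀ _ (by positivity), Real.sq_sqrt hs0.le]
  have hvD := volume_packed hΩ A b hdisj hcov
  have hfinD : volume D ≠ ⊤ := by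
    rw [hvD]
    exact ENNReal.mul_ne_top (ENNReal.natCast_ne_top m) hfin
  have hrD : volume.real D = m * V := by
    rw [Measure.real, hvD, ENNReal.toReal_mul, ENNReal.toReal_natCast]
    rfl
  have hposD : 0 < volume.real D := by
    rw [hrD]; positivity
  have hball : volume.real (Metric.ball (0 : E n) R) = R ^ n * om := by
    rw [Measure.real, Measure.addHaar_ball_of_pos _ _ hRp, ENNReal.toReal_mul,
      ENNReal.toReal_ofReal (by positivity), finrank_euclideanSpace, Fintype.card_fin]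
    rfl
  have key : (m * j : ℝ) < volume.real D * volume.real (Metric.ball (0 : E n) R) := by
    rw [hrD, hball]
    have h1 : ((j : ℝ) / (om * V)) ^ (2 / (n : ℝ)) < R ^ 2 := by
      have h2 : (2 * Real.pi) ^ 2 * ((j : ℝ) / (om * V)) ^ (2 / (n : ℝ))
          < (2 * Real.pi) ^ 2 * R ^ 2 := by
        rw [← mul_pow, hRs]
        exact hs1
      exact lt_of_mul_lt_mul_left h2 (by positivity)
    have h3 : (j : ℝ) / (om * V) < R ^ n := by
      have h4 := Real.rpow_lt_rpow (by positivity) h1 (by positivity : (0 : ℝ) < n / 2)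
      rw [← Real.rpow_mul (by positivity)] at h4
      have e1 : 2 / (n : ℝ) * (n / 2) = 1 := by field_simp
      have e2 : (R ^ 2) ^ ((n : ℝ) / 2) = R ^ n := by
        rw [← Real.rpow_natCast R 2, ← Real.rpow_mul hRp.le, ← Real.rpow_natCast]
        congr 1
        push_cast
        ring
      rwa [e1, Real.rpow_one, e2] at h4
    rw [div_lt_iff₀ (by positivity)] at h3
    calc (m : ℝ) * j < m * (R ^ n * (om * V)) := by gcongr
      _ = _ := by ring
  have hex : ∃ x₀ : E n, ∃ S : Finset (E n), (∀ a ∈ S, a ∈ Λ ∧ dist a x₀ < R)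
      ∧ m * j < S.card := by
    by_contra hcon
    push Not at hcon
    have := density hfinD hposD hD hRp (m * j) (fun x S hS => hcon x S hS)
    push_cast at this
    linarith
  obtain ⟨x₀, S, hS, hcard⟩ := hex
  have := mu_le hΩ hfin hV hμ hD hm A b hdisj hcov j x₀ S hS hcard
  rw [hRs] at this
  linarith

end Main

end Pool.Agent.H85.Spectral
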